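import Pool.Agent.T9h72.KU.Spec

set_option autoImplicit false

/-!
# Project KU, job SHAPE: the function `S` is first convex, then concave
-/

namespace Pool.Agent.T9h69.KU

open Set Filter Topology Pool.Agent.R190.KR Pool.Agent.T9h72.KU

section

variable {n m : ℕ} {c : ℝ}

theorem S_pos_of (hp : Peak n m c) {x : ℝ} (hx : x ∈ Ioo (1 / 2) c) : 0 < S n m x := by
  have h := hp.mono (left_mem_Icc.2 hp.mem.1.le) ⟨hx.1.le, hx.2.le⟩ hx.1
  rwa [S_half] at h

theorem S1_nonneg (hp : Peak n m c) {x : ℝ} (hx : x ∈ Ioo (1 / 2) c) : 0 ≤ S1 n m x := by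
  have hd := hasDerivAt_S n m (x := x) (by linarith [hx.1]) (by linarith [hx.2, hp.mem.2])
  have hmono := hp.mono.monotoneOn
  have h1 : HasDerivWithinAt (S n m) (S1 n m x) (Icc (1 / 2) c) x := hd.hasDerivWithinAt
  have h2 : derivWithin (S n m) (Icc (1 / 2) c) x = S1 n m x :=
    h1.derivWithin (uniqueDiffWithinAt_of_mem_nhds (Icc_mem_nhds hx.1 hx.2))
  rw [← h2]
  exact hmono.derivWithin_nonneg

theorem S1_pos (hn : 1 ≤ n) (hp : Peak n m c) {x : ℝ} (hx : x ∈ Ioo (1 / 2) c) :
    0 < S1 n m x := by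
  rcases (S1_nonneg hp hx).lt_or_eq with h | h
  · exact h
  exfalso
  have hx1 : x < 1 := by linarith [hx.2, hp.mem.2]
  have h2 := S2_neg n m hn hx.1 hx1 (S_pos_of hp hx) h.symm
  have hloc : IsLocalMin (S1 n m) x := by
    filter_upwards [Ioo_mem_nhds hx.1 hx.2] with y hy
    rw [← h]
    exact S1_nonneg hp hy
  have h3 := hloc.hasDerivAt_eq_zero (hasDerivAt_S1 n m (x := x) (by linarith [hx.1]) hx1)
  linarith

theorem psi_sum (n m : ℕ) {y : ℝ} (h0 : 0 < y) (h1 : y < 1) :
    psi n m y + psi n m (1 - y) = (n * w y - m) / (y * (1 - y)) := by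
  have hA := A_pos h0 h1
  have hB := A_pos (x := 1 - y) (by linarith) (by linarith)
  have hy : (1 : ℝ) - y ≠ 0 := by linarith
  unfold psi w
  rw [sub_sub_cancel]
  field_simp
  ring

theorem good (hLC : S_LC) (hLP : S_LP) (hn : 1 ≤ n) (hm : 1 ≤ m) (hp : Peak n m c) {y : ℝ}
    (hy : y ∈ Ioo (1 / 2) c) (h2 : 0 ≤ S2 n m y) :
    0 < psi n m y ∧ 0 < psi n m y ^ 2 + psi' n m y := by
  have hy0 : 0 < y := by linarith [hy.1]
  have hy1 : y < 1 := by linarith [hy.2, hp.mem.2]
  have hyI : y ∈ Ioo (1 / 2 : ℝ) 1 := ⟨hy.1, hy1⟩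
  have hS := S_pos_of hp hy
  have hS1 := S1_pos hn hp hy
  have hG' := G_pos n m (x := 1 - y) (by linarith) (by linarith)
  have hG : G n m (1 - y) < G n m y := by
    unfold S at hS
    linarith
  have hA := A_pos hy0 hy1
  have hB := A_pos (x := 1 - y) (by linarith) (by linarith)
  have hAB := A_le_of hy.1.le hy1
  have hn0 : (0 : ℝ) < n := by exact_mod_cast hn
  -- step 1
  have h3 : (m : ℝ) ≤ n * w y := by
    by_contra hcon
    push Not at hcon
    have h4 : psi n m y + psi n m (1 - y) < 0 := by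
      rw [psi_sum n m hy0 hy1]
      exact div_neg_of_neg_of_pos (by linarith) (mul_pos hy0 (by linarith))
    have h5 : psi n m y < 0 := by
      by_contra h6
      push Not at h6
      have h7 : 0 ≤ (n : ℝ) / A y - m := by
        unfold psi at h6
        by_contra h8
        push Not at h8
        have := div_neg_of_neg_of_pos h8 (by linarith : (0 : ℝ) < 1 - y)
        linarith
      have h8 : (n : ℝ) / A y ≤ n / A (1 - y) := div_le_div_of_nonneg_left hn0.le hB hAB
      have h9 : 0 ≤ psi n m (1 - y) := by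
        unfold psi
        rw [sub_sub_cancel]
        exact div_nonneg (by linarith) hy0.le
      linarith
    have h6 : S1 n m y < 0 := by
      unfold S1
      have h7 : G n m y * psi n m y ≤ G n m (1 - y) * psi n m y :=
        mul_le_mul_of_nonpos_right hG.le h5.le
      have h8 := mul_neg_of_pos_of_neg hG' h4
      linarith
    linarith
  -- step 2
  have h4 := hLC n m hm y hyI h3
  have h5 : 0 < psi n m y ^ 2 + psi' n m y := by
    by_contra hcon
    push Not at hcon
    have h6 : G n m y * (psi n m y ^ 2 + psi' n m y) ≤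
        G n m (1 - y) * (psi n m y ^ 2 + psi' n m y) :=
      mul_le_mul_of_nonpos_right hG.le hcon
    have h7 := mul_lt_mul_of_pos_left h4 hG'
    unfold S2 at h2
    linarith
  refine ⟨?_, h5⟩
  rcases lt_trichotomy (psi n m y) 0 with h6 | h6 | h6
  · have := hLP n m hn y hyI h6 h5.le hS.le
    linarith
  · exfalso
    have h7 : (n : ℝ) / A y - m = 0 := by
      unfold psi at h6
      rcases div_eq_zero_iff.1 h6 with h8 | h8
      · exact h8
      · linarith
    rw [h6] at h5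
    unfold psi' at h5
    rw [h7] at h5
    have h8 : 0 < (n : ℝ) / A y ^ 2 := by positivity
    have h9 : (0 - (n : ℝ) / A y ^ 2) / (1 - y) ^ 2 < 0 := by
      refine div_neg_of_neg_of_pos (by linarith) ?_
      have : (0 : ℝ) < 1 - y := by linarith
      positivity
    linarith
  · exact h6

end

/-- JOB SHAPE -/
theorem shape (hLC : S_LC) (hLP : S_LP) (hZA : S_ZA) : S_SHAPE := by
  intro n m hn hm c hp
  have hc := hp.mem
  have hcont : ContinuousOn (S n m) (Icc (1 / 2 : ℝ) c) :=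
    (continuousOn_S n m hm).mono (Icc_subset_Icc (by norm_num) hc.2.le)
  have hder : ∀ x ∈ Ioo (1 / 2 : ℝ) c, HasDerivAt (S n m) (S1 n m x) x := fun x hx =>
    hasDerivAt_S n m (by linarith [hx.1]) (by linarith [hx.2, hc.2])
  have hder1 : ∀ x ∈ Ioo (1 / 2 : ℝ) c, HasDerivAt (S1 n m) (S2 n m x) x := fun x hx =>
    hasDerivAt_S1 n m (by linarith [hx.1]) (by linarith [hx.2, hc.2])
  have key : ∀ y ∈ Ioo (1 / 2 : ℝ) c, 0 ≤ S2 n m y → ∀ x, 1 / 2 < x → x < y → 0 < S2 n m x := by
    intro y hy h2 x hx hxy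
    obtain ⟨h3, h4⟩ := good hLC hLP hn hm hp hy h2
    exact hZA n m hn hm x y hx hxy (by linarith [hy.2, hc.2]) h3 h4 h2
  -- the general statement for a point `e`
  have fin : ∀ e ∈ Icc (1 / 2 : ℝ) c, (∀ x, 1 / 2 < x → x < e → 0 ≤ S2 n m x) →
      (∀ x, e < x → x < c → S2 n m x ≤ 0) →
      ConvexOn ℝ (Icc (1 / 2) e) (S n m) ∧ ConcaveOn ℝ (Icc e c) (S n m) := by
    intro e he h1 h2
    constructor
    · refine convexOn_of_hasDerivWithinAt2_nonneg (f' := S1 n m) (f'' := S2 n m) (convex_Icc _ _)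
        (hcont.mono (Icc_subset_Icc le_rfl he.2)) ?_ ?_ ?_
      · intro x hx
        rw [interior_Icc] at hx
        exact (hder x ⟨hx.1, hx.2.trans_le he.2⟩).hasDerivWithinAt
      · intro x hx
        rw [interior_Icc] at hx
        exact (hder1 x ⟨hx.1, hx.2.trans_le he.2⟩).hasDerivWithinAt
      · intro x hx
        rw [interior_Icc] at hx
        exact h1 x hx.1 hx.2
    · refine concaveOn_of_hasDerivWithinAt2_nonpos (f' := S1 n m) (f'' := S2 n m) (convex_Icc _ _)
        (hcont.mono (Icc_subset_Icc he.1 le_rfl)) ?_ ?_ ?_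
      · intro x hx
        rw [interior_Icc] at hx
        exact (hder x ⟨he.1.trans_lt hx.1, hx.2⟩).hasDerivWithinAt
      · intro x hx
        rw [interior_Icc] at hx
        exact (hder1 x ⟨he.1.trans_lt hx.1, hx.2⟩).hasDerivWithinAt
      · intro x hx
        rw [interior_Icc] at hx
        exact h2 x hx.1 hx.2
  by_cases hY : ∃ y ∈ Ioo (1 / 2 : ℝ) c, 0 ≤ S2 n m y
  · set Y : Set ℝ := {y | y ∈ Ioo (1 / 2 : ℝ) c ∧ 0 ≤ S2 n m y} with hYd
    have hne : Y.Nonempty := by
      obtain ⟨y, hy, h⟩ := hY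
      exact ⟨y, hy, h⟩
    have hbd : BddAbove Y := ⟨c, fun y hy => hy.1.2.le⟩
    have he1 : 1 / 2 ≤ sSup Y := by
      obtain ⟨y, hy⟩ := hne
      exact hy.1.1.le.trans (le_csSup hbd hy)
    have he2 : sSup Y ≤ c := csSup_le hne fun y hy => hy.1.2.le
    refine ⟨sSup Y, ⟨he1, he2⟩, fin _ ⟨he1, he2⟩ ?_ ?_⟩
    · intro x hx hxe
      obtain ⟨y, hy, hxy⟩ := exists_lt_of_lt_csSup hne hxe
      exact (key y hy.1 hy.2 x hx hxy).le
    · intro x hx hxc
      by_contra hcon
      push Not at hcon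
      have := le_csSup hbd (show x ∈ Y from ⟨⟨he1.trans_lt hx, hxc⟩, hcon.le⟩)
      linarith
  · push Not at hY
    refine ⟨1 / 2, left_mem_Icc.2 hc.1.le, fin _ (left_mem_Icc.2 hc.1.le) ?_ ?_⟩
    · intro x h1 h2
      linarith
    · intro x h1 h2
      exact (hY x ⟨h1, h2⟩).le

end Pool.Agent.T9h69.KU
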