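import Pool.Agent.T9h72.KU.Spec2

set_option autoImplicit false

/-!
# Project KU, job REG
-/

namespace Pool.Agent.T9h69.KU

open Set Filter Topology MeasureTheory Pool.Agent.R190.KR Pool.Agent.T9h72.KU

/-- JOB REG -/
theorem reg : S_REG := by
  intro f p hp hc hconv hfp h0 h1
  have hint : IntervalIntegrable f volume p 1 := by
    refine ContinuousOn.intervalIntegrable ?_
    rwa [uIcc_of_le hp.le]
  have hc1 : ContinuousOn (fun x => f x * (x - p)) (Icc p 1) :=
    hc.mul (by fun_prop)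
  have hint1 : IntervalIntegrable (fun x => f x * (x - p)) volume p 1 := by
    refine ContinuousOn.intervalIntegrable ?_
    rwa [uIcc_of_le hp.le]
  -- a nonpositive `f` is zero
  have hneg : (∀ x ∈ Icc p 1, f x ≤ 0) → ∀ x ∈ Icc p 1, f x = 0 := by
    intro hle x hx
    by_contra hne
    have hlt : f x < 0 := lt_of_le_of_ne (hle x hx) hne
    have h3 : 0 < ∫ y in p..1, -f y :=
      intervalIntegral.integral_pos hp hc.neg
        (fun y hy => neg_nonneg.2 (hle y (Ioc_subset_Icc_self hy))) ⟨x, hx, neg_pos.2 hlt⟩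
    rw [intervalIntegral.integral_neg, h0] at h3
    simp at h3
  -- the last zero
  have hcl : IsClosed (Icc p 1 ∩ f ⁻¹' Iic 0) := hc.preimage_isClosed_of_isClosed isClosed_Icc isClosed_Iic
  have hne : (Icc p 1 ∩ f ⁻¹' Iic 0).Nonempty := ⟨p, left_mem_Icc.2 hp.le, by simp [hfp]⟩
  have hbd : BddAbove (Icc p 1 ∩ f ⁻¹' Iic 0) := ⟨1, fun y hy => hy.1.2⟩
  obtain ⟨z, hzd⟩ : ∃ z, z = sSup (Icc p 1 ∩ f ⁻¹' Iic 0) := ⟨_, rfl⟩
  have hz : z ∈ Icc p 1 ∩ f ⁻¹' Iic 0 := by
    rw [hzd]
    exact hcl.csSup_mem hne hbd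
  have hz1 := hz.1
  have hz2 : f z ≤ 0 := hz.2
  have hle : ∀ x ∈ Icc p z, f x ≤ 0 := by
    intro x hx
    have h3 := hconv.le_max_of_mem_Icc (left_mem_Icc.2 hp.le) hz1 hx
    rw [hfp] at h3
    exact h3.trans (max_le le_rfl hz2)
  have hgt : ∀ x ∈ Icc p 1, z < x → 0 < f x := by
    intro x hx hzx
    by_contra hcon
    push Not at hcon
    have h3 := le_csSup hbd (show x ∈ Icc p 1 ∩ f ⁻¹' Iic 0 from ⟨hx, hcon⟩)
    rw [← hzd] at h3
    linarith
  rcases hz1.2.lt_or_eq with hlt | heq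
  · exfalso
    have h3 : 0 < ∫ y in p..1, f y * (y - z) := by
      refine intervalIntegral.integral_pos hp (hc.mul (by fun_prop)) ?_
        ⟨1, right_mem_Icc.2 hp.le, mul_pos (hgt 1 (right_mem_Icc.2 hp.le) hlt) (by linarith)⟩
      intro y hy
      have hyI := Ioc_subset_Icc_self hy
      rcases le_or_gt y z with h4 | h4
      · exact mul_nonneg_of_nonpos_of_nonpos (hle y ⟨hyI.1, h4⟩) (by linarith)
      · exact mul_nonneg (hgt y hyI h4).le (by linarith)
    have h4 : ∫ y in p..1, f y * (y - z) = 0 := by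
      have h5 : (fun y => f y * (y - z)) = fun y => f y * (y - p) - (z - p) * f y := by
        funext y
        ring
      rw [h5, intervalIntegral.integral_sub hint1 (hint.const_mul _),
        intervalIntegral.integral_const_mul, h0, h1]
      ring
    linarith
  · rw [heq] at hle
    exact hneg hle

end Pool.Agent.T9h69.KU
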