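import Pool.Agent.T9h69.KU.Shape
import Pool.Agent.T9h72.KU.Spec2

set_option autoImplicit false

/-!
# Project KU, job SHAPE2: the pointwise form of SHAPE
-/

namespace Pool.Agent.T9h69.KU

open Set Filter Topology Pool.Agent.R190.KR Pool.Agent.T9h72.KU

/-- JOB SHAPE2 -/
theorem shape2 (hLC : S_LC) (hLP : S_LP) (hZA : S_ZA) : S_SHAPE2 := by
  intro n m hn hm c hp x y hx hxy hyc h2
  have hy : y ∈ Ioo (1 / 2 : ℝ) c := ⟨hx.trans hxy, hyc⟩
  obtain ⟨h3, h4⟩ := good hLC hLP hn hm hp hy h2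
  exact hZA n m hn hm x y hx hxy (by linarith [hy.2, hp.mem.2]) h3 h4 h2

end Pool.Agent.T9h69.KU
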